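import Mathlib
import Pool.Agent.H14.FRU.TDefs

open Set Topology

namespace FRU

theorem mpa_len (x : ℕ → Bool) (n : ℕ) : (pre x n).length = n := by
  simp [pre]

theorem fru_mpa (hU : URNStmt) (hB : BRCStmt) (hN : NZBStmt) (hC : CHFStmt) (hA : ADFStmt) :
    MPAStmt := by
  intro W _ h r A j hL
  classical
  obtain ⟨P, hP1, hP2, hP3, hP4⟩ := hU (List Bool) (Bool × (Σ t : List Bool, Fin (t.length + 1)))
    (Set.range chi) hB {y | y.1 = true}
  let g := gg r A j
  let e : W → Cp (OnePoint (Psi g)) → (List Bool → ℝ) ×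
      ((Bool × (Σ t : List Bool, Fin (t.length + 1))) → ℝ) := fun α f =>
    (fun s => f.1 (Psi.pt g (Sum.inl s) : Psi g), fun y => f.1 (Psi.pt g (Sum.inr (α, y)) : Psi g))
  have he : ∀ α, Continuous (e α) := by
    intro α
    refine Continuous.prodMk (continuous_pi fun s => ?_) (continuous_pi fun y => ?_)
    · exact (continuous_apply _).comp continuous_subtype_val
    · exact (continuous_apply _).comp continuous_subtype_val
  have hm : ∀ α f, e α f ∈ {p : (List Bool → ℝ) ×
      ((Bool × (Σ t : List Bool, Fin (t.length + 1))) → ℝ) | ¬ (p.1 ∈ Set.range chi ∧ p.2 = 0)} := by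
    rintro α f ⟨⟨x, hx⟩, h0⟩
    obtain ⟨y, hy⟩ := hN W h r A j hL f.1 f.2 x α (fun s => (congrFun hx s).symm)
    exact hy (congrFun h0 y)
  refine ⟨fun α f => P (e α f), fun α => ?_, fun α f => hP1 _, fun X => ?_⟩
  · exact hP2.comp_continuous (he α) (hm α)
  · obtain ⟨f, hf⟩ := hC _ _ g (hA W h r A j hL) X
    refine ⟨f, fun α => ?_⟩
    have h1 : (e α f).1 = chi (r X) := by
      funext s
      change f.1 (Psi.pt g (Sum.inl s) : Psi g) = _
      rw [hf]
      by_cases hs : ∃ k, s = pre (r X) k
      · rw [Set.indicator_of_mem, chi, Set.indicator_of_mem]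
        · exact hs
        · exact Or.inl (by obtain ⟨k, hk⟩ := hs; exact ⟨k, by rw [hk]⟩)
      · rw [Set.indicator_of_notMem, chi, Set.indicator_of_notMem]
        · exact hs
        · rintro (⟨k, hk⟩ | ⟨α, s', hk, -⟩)
          · exact hs ⟨k, Sum.inl_injective hk⟩
          · exact absurd hk (by simp)
    let u : Set (Bool × (Σ t : List Bool, Fin (t.length + 1))) :=
      {y | (Sum.inr (α, y) : DD W) ∈ g X}
    have h2 : (e α f).2 = u.indicator (fun _ => 1) := by
      funext y
      change f.1 (Psi.pt g (Sum.inr (α, y)) : Psi g) = _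
      rw [hf]
      by_cases hy : y ∈ u
      · rw [Set.indicator_of_mem hy, Set.indicator_of_mem]
        exact hy
      · rw [Set.indicator_of_notMem hy, Set.indicator_of_notMem]
        exact hy
    have hu : u.Nonempty := by
      refine ⟨(decide (α ∈ X), ⟨pre (r X) (A X α + j X α), ⟨A X α, ?_⟩⟩), ?_⟩
      · rw [mpa_len]; omega
      · refine Or.inr ⟨α, _, rfl, ?_, rfl, ?_⟩
        · change pre (r X) (A X α + j X α) = pre (r X) (pre (r X) (A X α + j X α)).length
          rw [mpa_len]
        · change j X α ≤ (pre (r X) (A X α + j X α)).length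
          rw [mpa_len]; omega
    have hu1 : ∀ y ∈ u, y.1 = decide (α ∈ X) := by
      rintro y (⟨k, hk⟩ | ⟨β, s', hk, -⟩)
      · exact absurd hk (by simp)
      · have := Sum.inr_injective hk
        simp only [Prod.mk.injEq] at this
        obtain ⟨rfl, rfl⟩ := this
        rfl
    have hp : e α f = (chi (r X), u.indicator (fun _ => 1)) := Prod.ext h1 h2
    refine ⟨fun hα => ?_, fun hα => ?_⟩
    · change P (e α f) = 1
      rw [hp]
      exact hP3 _ ⟨_, rfl⟩ u hu fun y hy => by
        have := hu1 y hy
        simpa [hα] using this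
    · change P (e α f) = 0
      rw [hp]
      exact hP4 _ ⟨_, rfl⟩ u hu fun y hy => by
        have := hu1 y hy
        simp only [hα, decide_false] at this
        simp [this]

end FRU
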