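import Mathlib
import Pool.Agent.H14.FRU.TDefs

open Set Topology

namespace FRU

theorem fru_nmz : NMZStmt := by
  intro W hW hM
  haveI : TopologicalSpace.MetrizableSpace (W → unitInterval) := hM
  obtain ⟨U, hU⟩ := (nhds (fun _ => 0 : W → unitInterval)).exists_antitone_basis
  have h1 : ∀ n, ∃ F : Finset W, ∀ x : W → unitInterval, (∀ w ∈ F, x w = 0) → x ∈ U n := by
    intro n
    have h2 : U n ∈ nhds (fun _ => 0 : W → unitInterval) := hU.1.mem_of_mem trivial
    rw [nhds_pi, Filter.mem_pi] at h2
    obtain ⟨I, hI, t, ht, hsub⟩ := h2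
    refine ⟨hI.toFinset, fun x hx => hsub ?_⟩
    intro i hi
    rw [hx i (by simpa using hi)]
    exact mem_of_mem_nhds (ht i)
  choose F hF using h1
  have hc : (⋃ n, (F n : Set W)).Countable := Set.countable_iUnion fun n => (F n).countable_toSet
  obtain ⟨w, hw⟩ : ∃ w, w ∉ ⋃ n, (F n : Set W) := by
    by_contra h
    push Not at h
    have h3 : (Set.univ : Set W).Countable := hc.mono fun w _ => h w
    exact not_countable (α := W) (Set.countable_univ_iff.1 h3)
  have hV : {x : W → unitInterval | x w ≠ 1} ∈ nhds (fun _ => 0 : W → unitInterval) := by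
    apply IsOpen.mem_nhds
    · exact isOpen_ne.preimage (continuous_apply w)
    · simp
  obtain ⟨n, -, hn⟩ := hU.1.mem_iff.1 hV
  classical
  have h4 := hn (hF n (fun v => if v = w then 1 else 0) (by
    intro v hv
    have : v ≠ w := by
      rintro rfl
      exact hw (Set.mem_iUnion.2 ⟨n, hv⟩)
    simp [this]))
  simp at h4

end FRU
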